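import Mathlib
import Pool.Agent.H410R2.ACIface

/-! helper410's project (additive complements of the primes), task AC5: `Collapse` and `MainIneq` -/

set_option autoImplicit false

open Finset

namespace Pool.Agent.H898R2.AC5

open Pool.Agent.H410R2.AC

variable {n : ℕ}

theorem mem_cfg {B : Finset ℕ} {σ : Fin n → Option ℕ} :
    σ ∈ cfg n B ↔ (∀ τ a, σ τ = some a → a ∈ B) ∧ Inj σ := by
  classical
  unfold cfg
  rw [mem_filter, Fintype.mem_piFinset]
  refine and_congr_left fun _ => ?_
  constructor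
  · intro h τ a ha
    have := h τ
    rw [Finset.mem_insertNone] at this
    exact this a ha
  · intro h τ
    rw [Finset.mem_insertNone]
    intro a ha
    exact h τ a ha

theorem mem_cfg_erase {B : Finset ℕ} {a₀ : ℕ} {σ : Fin n → Option ℕ} :
    σ ∈ cfg n (B.erase a₀) ↔ σ ∈ cfg n B ∧ ∀ τ, σ τ ≠ some a₀ := by
  rw [mem_cfg, mem_cfg]
  constructor
  · rintro ⟨h1, h2⟩
    exact ⟨⟨fun τ a h => (mem_erase.1 (h1 τ a h)).2, h2⟩,
      fun τ h => (mem_erase.1 (h1 τ a₀ h)).1 rfl⟩
  · rintro ⟨⟨h1, h2⟩, h3⟩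
    refine ⟨fun τ a h => mem_erase.2 ⟨?_, h1 τ a h⟩, h2⟩
    rintro rfl
    exact h3 τ h

theorem cfg_mono {B B' : Finset ℕ} (h : B ⊆ B') : cfg n B ⊆ cfg n B' := by
  intro σ hσ
  rw [mem_cfg] at hσ ⊢
  exact ⟨fun τ a ha => h (hσ.1 τ a ha), hσ.2⟩

theorem update_none_mem {B : Finset ℕ} {σ : Fin n → Option ℕ} (τ₀ : Fin n) (h : σ ∈ cfg n B) :
    Function.update σ τ₀ none ∈ cfg n B := by
  rw [mem_cfg] at h ⊢
  refine ⟨fun τ a ha => ?_, fun τ τ' a ha ha' => ?_⟩
  · by_cases hτ : τ = τ₀
    · subst hτ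
      simp at ha
    · rw [Function.update_of_ne hτ] at ha
      exact h.1 τ a ha
  · by_cases hτ : τ = τ₀
    · subst hτ
      simp at ha
    · by_cases hτ' : τ' = τ₀
      · subst hτ'
        simp at ha'
      · rw [Function.update_of_ne hτ] at ha
        rw [Function.update_of_ne hτ'] at ha'
        exact h.2 τ τ' a ha ha'

theorem update_some_mem {B : Finset ℕ} {a₀ : ℕ} (ha₀ : a₀ ∈ B) {σ : Fin n → Option ℕ}
    (τ₀ : Fin n) (h : σ ∈ cfg n (B.erase a₀)) :
    Function.update σ τ₀ (some a₀) ∈ cfg n B := by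
  rw [mem_cfg_erase] at h
  obtain ⟨h1, h3⟩ := h
  rw [mem_cfg] at h1 ⊢
  refine ⟨fun τ a ha => ?_, fun τ τ' a ha ha' => ?_⟩
  · by_cases hτ : τ = τ₀
    · subst hτ
      rw [Function.update_self] at ha
      rw [← Option.some_inj.1 ha]
      exact ha₀
    · rw [Function.update_of_ne hτ] at ha
      exact h1.1 τ a ha
  · by_cases hτ : τ = τ₀
    · by_cases hτ' : τ' = τ₀
      · rw [hτ, hτ']
      · subst hτ
        rw [Function.update_self] at ha
        rw [Function.update_of_ne hτ', ← Option.some_inj.1 ha] at ha'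
        exact absurd ha' (h3 τ')
    · by_cases hτ' : τ' = τ₀
      · subst hτ'
        rw [Function.update_self] at ha'
        rw [Function.update_of_ne hτ, ← Option.some_inj.1 ha'] at ha
        exact absurd ha (h3 τ)
      · rw [Function.update_of_ne hτ] at ha
        rw [Function.update_of_ne hτ'] at ha'
        exact h1.2 τ τ' a ha ha'

/-- splitting a product of a configuration at one place -/
theorem prod_update (F : Fin n → Option ℕ → ℝ) (σ : Fin n → Option ℕ) (τ₀ : Fin n)
    (o : Option ℕ) (hnone : F τ₀ none = 1) :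
    ∏ τ, F τ (Function.update σ τ₀ o τ) = F τ₀ o * ∏ τ, F τ (Function.update σ τ₀ none τ) := by
  rw [← mul_prod_erase univ _ (mem_univ τ₀), ← mul_prod_erase univ (fun τ => F τ
    (Function.update σ τ₀ none τ)) (mem_univ τ₀)]
  rw [Function.update_self, Function.update_self, hnone, one_mul]
  congr 1
  apply prod_congr rfl
  intro τ hτ
  have := (mem_erase.1 hτ).1
  rw [Function.update_of_ne this, Function.update_of_ne this]

theorem sum_split (B : Finset ℕ) (a₀ : ℕ) (f : (Fin n → Option ℕ) → ℝ) :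
    ∑ σ ∈ cfg n B, f σ = ∑ σ ∈ cfg n (B.erase a₀), f σ +
      ∑ τ₀, ∑ σ ∈ (cfg n B).filter (fun σ => σ τ₀ = some a₀), f σ := by
  classical
  have h1 : cfg n (B.erase a₀) = (cfg n B).filter (fun σ => ∀ τ, σ τ ≠ some a₀) := by
    ext σ
    rw [mem_cfg_erase, mem_filter]
  rw [h1, sum_filter]
  simp only [sum_filter]
  rw [sum_comm, ← sum_add_distrib]
  apply sum_congr rfl
  intro σ hσ
  rw [mem_cfg] at hσ
  by_cases h : ∀ τ, σ τ ≠ some a₀
  · rw [if_pos h]
    have : ∑ τ, (if σ τ = some a₀ then f σ else 0) = 0 := by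
      apply sum_eq_zero
      intro τ _
      rw [if_neg (h τ)]
    rw [this, add_zero]
  · rw [if_neg h]
    push Not at h
    obtain ⟨τ, hτ⟩ := h
    rw [sum_eq_single τ]
    · rw [if_pos hτ, zero_add]
    · intro τ' _ hne
      rw [if_neg]
      intro h'
      exact hne (hσ.2 τ' τ a₀ h' hτ)
    · intro h'
      exact absurd (mem_univ τ) h'

theorem sum_fibre {B : Finset ℕ} {a₀ : ℕ} (ha₀ : a₀ ∈ B) (x : Fin n → ℕ → ℝ) (τ₀ : Fin n) :
    ∑ σ ∈ (cfg n B).filter (fun σ => σ τ₀ = some a₀), term x σ =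
      ∑ σ ∈ (cfg n (B.erase a₀)).filter (fun σ => σ τ₀ = none), x τ₀ a₀ * term x σ := by
  classical
  symm
  refine sum_bij' (fun σ _ => Function.update σ τ₀ (some a₀))
    (fun σ _ => Function.update σ τ₀ none) ?_ ?_ ?_ ?_ ?_
  · intro σ hσ
    rw [mem_filter] at hσ ⊢
    exact ⟨update_some_mem ha₀ τ₀ hσ.1, Function.update_self _ _ _⟩
  · intro σ hσ
    rw [mem_filter] at hσ ⊢
    refine ⟨mem_cfg_erase.2 ⟨update_none_mem τ₀ hσ.1, fun τ h => ?_⟩, Function.update_self _ _ _⟩
    by_cases hτ : τ = τ₀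
    · subst hτ
      simp at h
    · rw [Function.update_of_ne hτ] at h
      exact hτ ((mem_cfg.1 hσ.1).2 τ τ₀ a₀ h hσ.2)
  · intro σ hσ
    rw [mem_filter] at hσ
    rw [Function.update_idem, ← hσ.2, Function.update_eq_self]
  · intro σ hσ
    rw [mem_filter] at hσ
    rw [Function.update_idem, ← hσ.2, Function.update_eq_self]
  · intro σ hσ
    rw [mem_filter] at hσ
    have h := prod_update (fun τ o => (match o with
      | none => 1
      | some a => x τ a : ℝ)) σ τ₀ (some a₀) rfl
    have h2 : Function.update σ τ₀ none = σ := by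
      rw [← hσ.2, Function.update_eq_self]
    rw [h2] at h
    exact h.symm

theorem collapse : Collapse := by
  intro n B a₀ β x ha₀ hβ hx
  unfold WW
  simp only [one_mul]
  rw [sum_split B a₀]
  have h1 : ∑ τ₀, ∑ σ ∈ (cfg n B).filter (fun σ => σ τ₀ = some a₀), term x σ =
      ∑ σ ∈ cfg n (B.erase a₀), (∑ τ₀, if σ τ₀ = none then - β τ₀ else 0) * term x σ := by
    simp only [sum_fibre ha₀, sum_filter]
    rw [sum_comm]
    apply sum_congr rfl
    intro σ _
    rw [sum_mul]
    apply sum_congr rfl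
    intro τ _
    split_ifs
    · rw [hx]
    · rw [zero_mul]
  rw [h1, ← sum_add_distrib]
  apply sum_congr rfl
  intro σ _
  have h2 : (1 : ℝ) + ∑ τ₀, (if σ τ₀ = none then - β τ₀ else 0) = coef β σ := by
    unfold coef
    rw [← hβ, ← sum_add_distrib]
    apply sum_congr rfl
    intro τ _
    split_ifs <;> ring
  rw [← h2]
  ring

theorem occ_nonneg {q : Fin n → ℝ} (hq : ∀ τ, 0 ≤ q τ) (σ : Fin n → Option ℕ) : 0 ≤ occ q σ := by
  unfold occ
  apply prod_nonneg
  intro τ _
  split_ifs
  · norm_num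
  · exact hq τ

theorem inner_le {B : Finset ℕ} {q : Fin n → ℝ} (hq : ∀ τ, 0 ≤ q τ) (τ₀ : Fin n) :
    ∑ σ ∈ (cfg n B).filter (fun σ => σ τ₀ ≠ none), occ q σ ≤
      B.card * q τ₀ * ∑ σ ∈ cfg n B, occ q σ := by
  classical
  have h1 : ∑ σ ∈ (cfg n B).filter (fun σ => σ τ₀ ≠ none), occ q σ =
      ∑ a ∈ B, ∑ σ ∈ (cfg n B).filter (fun σ => σ τ₀ = some a), occ q σ := by
    simp only [sum_filter]
    rw [sum_comm]
    apply sum_congr rfl
    intro σ hσ
    rw [mem_cfg] at hσ
    rcases h : σ τ₀ with _ | a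
    · simp
    · rw [if_pos (by simp), sum_eq_single a]
      · simp
      · intro b _ hb
        rw [if_neg]
        intro h'
        exact hb (Option.some_inj.1 h').symm
      · intro h'
        exact absurd (hσ.1 τ₀ a h) h'
  have h2 : ∀ a ∈ B, ∑ σ ∈ (cfg n B).filter (fun σ => σ τ₀ = some a), occ q σ ≤
      q τ₀ * ∑ σ ∈ cfg n B, occ q σ := by
    intro a _
    have h3 : ∀ σ ∈ (cfg n B).filter (fun σ => σ τ₀ = some a),
        occ q σ = q τ₀ * occ q (Function.update σ τ₀ none) := by
      intro σ hσ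
      rw [mem_filter] at hσ
      have h := prod_update (fun τ o => (if o = none then 1 else q τ : ℝ)) σ τ₀ (some a) (by simp)
      have h4 : Function.update σ τ₀ (some a) = σ := by
        rw [← hσ.2, Function.update_eq_self]
      rw [h4] at h
      unfold occ
      rw [h]
      simp
    rw [sum_congr rfl h3, ← mul_sum]
    apply mul_le_mul_of_nonneg_left _ (hq τ₀)
    have hinj : Set.InjOn (fun σ : Fin n → Option ℕ => Function.update σ τ₀ none)
        ((cfg n B).filter (fun σ => σ τ₀ = some a) : Set (Fin n → Option ℕ)) := by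
      intro σ hσ σ' hσ' h
      have hσ1 := (mem_filter.1 hσ).2
      have hσ2 := (mem_filter.1 hσ').2
      funext τ
      by_cases hτ : τ = τ₀
      · subst hτ
        rw [hσ1, hσ2]
      · have := congrFun h τ
        simp only [Function.update_of_ne hτ] at this
        exact this
    rw [← sum_image (f := fun σ => occ q σ) hinj]
    apply sum_le_sum_of_subset_of_nonneg
    · intro σ hσ
      obtain ⟨σ', h', rfl⟩ := mem_image.1 hσ
      exact update_none_mem τ₀ (mem_filter.1 h').1
    · intro σ _ _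
      exact occ_nonneg hq σ
  rw [h1]
  calc ∑ a ∈ B, ∑ σ ∈ (cfg n B).filter (fun σ => σ τ₀ = some a), occ q σ
      ≤ ∑ a ∈ B, q τ₀ * ∑ σ ∈ cfg n B, occ q σ := sum_le_sum h2
    _ = B.card * q τ₀ * ∑ σ ∈ cfg n B, occ q σ := by
      rw [sum_const, nsmul_eq_mul]
      ring

theorem mainIneq : MainIneq := by
  intro n B a₀ β q η hβ0 hβ hq hη
  have hcoef0 : ∀ σ : Fin n → Option ℕ, 0 ≤ coef β σ := by
    intro σ
    unfold coef
    apply sum_nonneg
    intro τ _
    split_ifs
    · exact le_rfl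
    · exact hβ0 τ
  have hcoef1 : ∀ σ : Fin n → Option ℕ, coef β σ ≤ 1 := by
    intro σ
    unfold coef
    rw [← hβ]
    apply sum_le_sum
    intro τ _
    split_ifs
    · exact hβ0 τ
    · exact le_rfl
  have hocc := fun σ : Fin n → Option ℕ => occ_nonneg hq σ
  have hS : 0 ≤ ∑ σ ∈ cfg n B, occ q σ := sum_nonneg fun σ _ => hocc σ
  refine ⟨?_, ?_⟩
  · calc ∑ σ ∈ cfg n (B.erase a₀), coef β σ ^ 2 * occ q σ
        ≤ ∑ σ ∈ cfg n (B.erase a₀), coef β σ * occ q σ := by
          apply sum_le_sum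
          intro σ _
          apply mul_le_mul_of_nonneg_right _ (hocc σ)
          nlinarith [hcoef0 σ, hcoef1 σ]
      _ ≤ ∑ σ ∈ cfg n B, coef β σ * occ q σ :=
          sum_le_sum_of_subset_of_nonneg (cfg_mono (erase_subset _ _))
            (fun σ _ _ => mul_nonneg (hcoef0 σ) (hocc σ))
      _ = ∑ τ, β τ * ∑ σ ∈ (cfg n B).filter (fun σ => σ τ ≠ none), occ q σ := by
          unfold coef
          simp only [sum_mul, sum_filter, mul_sum]
          rw [sum_comm]
          apply sum_congr rfl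
          intro τ _
          apply sum_congr rfl
          intro σ _
          by_cases h : σ τ = none
          · simp [h]
          · simp [h]
      _ ≤ ∑ τ, β τ * (η * ∑ σ ∈ cfg n B, occ q σ) := by
          apply sum_le_sum
          intro τ _
          apply mul_le_mul_of_nonneg_left _ (hβ0 τ)
          exact (inner_le hq τ).trans (mul_le_mul_of_nonneg_right (hη τ) hS)
      _ = η * ∑ σ ∈ cfg n B, occ q σ := by
          rw [← sum_mul, hβ, one_mul]
  · have h0 : (fun _ : Fin n => (none : Option ℕ)) ∈ cfg n B := by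
      rw [mem_cfg]
      exact ⟨fun τ a h => by simp at h, fun τ τ' a h _ => by simp at h⟩
    have h1 : occ q (fun _ : Fin n => (none : Option ℕ)) = 1 := by
      unfold occ
      simp
    rw [← h1]
    exact single_le_sum (fun σ _ => hocc σ) h0

end Pool.Agent.H898R2.AC5
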