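import Pool.Agent.H476R2.Pal.Defs

/-! helper476's project (palindromes), task T2: second moment of any block by the divisor bound -/

set_option autoImplicit false

namespace Pool.Agent.H898R2.PalT2

open Finset Pool.Agent.Helper112 Pool.Agent.H476R2.Pal

/-- the number with digits `m` -/
def NN (L A J : ℕ) (m : Fin J → Fin 10) : ℕ := ∑ j : Fin J, (m j : ℕ) * fr L (A + j)

theorem fr_dvd {L c c' : ℕ} (h : c < c') (hc : c' ≤ L) : 10 * 10 ^ (L - c') ∣ fr L c := by
  have e : (10 : ℕ) * 10 ^ (L - c') = 10 ^ (L - c' + 1) := by ring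
  rw [e]
  unfold fr
  split_ifs with h0
  · exact pow_dvd_pow 10 (by omega)
  · exact dvd_add (pow_dvd_pow 10 (by omega)) (pow_dvd_pow 10 (by omega))

theorem fr_top {L c : ℕ} (hc : c ≤ L) : ∃ k, fr L c = 10 ^ (L - c) + 10 * 10 ^ (L - c) * k := by
  unfold fr
  split_ifs with h0
  · refine ⟨0, ?_⟩
    subst h0
    simp
  · refine ⟨10 ^ (2 * c - 1), ?_⟩
    have h1 : (10 : ℕ) * 10 ^ (L - c) * 10 ^ (2 * c - 1) = 10 ^ (L + c) := by
      rw [mul_assoc, ← pow_add, ← pow_succ']
      congr 1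
      omega
    rw [h1, add_comm]

theorem digits_inj (L A : ℕ) (m m' : ℕ → ℕ) (J : ℕ) (hJ : A + J ≤ L)
    (hm : ∀ j, j < J → m j < 10) (hm' : ∀ j, j < J → m' j < 10)
    (h : ∑ j ∈ range J, m j * fr L (A + j) = ∑ j ∈ range J, m' j * fr L (A + j)) :
    ∀ j, j < J → m j = m' j := by
  induction J with
  | zero => intro j hj; omega
  | succ J ih =>
    rw [sum_range_succ, sum_range_succ] at h
    have hd : ∀ n : ℕ → ℕ, 10 * 10 ^ (L - (A + J)) ∣ ∑ j ∈ range J, n j * fr L (A + j) := by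
      intro n
      apply dvd_sum
      intro j hj
      rw [mem_range] at hj
      exact Dvd.dvd.mul_left (fr_dvd (by omega) (by omega)) _
    obtain ⟨s, hs⟩ := hd m
    obtain ⟨s', hs'⟩ := hd m'
    obtain ⟨k, hk⟩ := fr_top (L := L) (c := A + J) (by omega)
    have hP : 0 < 10 ^ (L - (A + J)) := by positivity
    have hcancel : 10 ^ (L - (A + J)) * (10 * s + m J + 10 * (m J * k)) =
        10 ^ (L - (A + J)) * (10 * s' + m' J + 10 * (m' J * k)) := by
      rw [hs, hs', hk] at h
      linarith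
    have h2 := Nat.eq_of_mul_eq_mul_left hP hcancel
    have h3 := hm J (by omega)
    have h4 := hm' J (by omega)
    have h5 : m J = m' J := by
      generalize m J * k = u at h2
      generalize m' J * k = v at h2
      omega
    rw [h5] at h
    have h6 := ih (by omega) (fun j hj => hm j (by omega)) (fun j hj => hm' j (by omega))
      (Nat.add_right_cancel h)
    intro j hj
    rcases Nat.lt_succ_iff_lt_or_eq.1 hj with h7 | h7
    · exact h6 j h7
    · rw [h7]
      exact h5

theorem NN_inj (L A J : ℕ) (hJ : A + J ≤ L) : Function.Injective (NN L A J) := by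
  intro m m' h
  have h1 : ∀ n : Fin J → Fin 10, NN L A J n =
      ∑ j ∈ range J, (if hj : j < J then ((n ⟨j, hj⟩ : Fin 10) : ℕ) else 0) * fr L (A + j) := by
    intro n
    unfold NN
    rw [← Fin.sum_univ_eq_sum_range
      (fun j => (if hj : j < J then ((n ⟨j, hj⟩ : Fin 10) : ℕ) else 0) * fr L (A + j))]
    apply sum_congr rfl
    intro j _
    simp
  rw [h1, h1] at h
  have h2 := digits_inj L A _ _ J hJ (fun j hj => by
    rw [dif_pos hj]
    exact Fin.is_lt _) (fun j hj => by
    rw [dif_pos hj]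
    exact Fin.is_lt _) h
  funext j
  have h3 := h2 j j.2
  simp only [Fin.is_lt, dif_pos] at h3
  exact Fin.ext h3

theorem fr_le (L c : ℕ) : fr L c ≤ 2 * 10 ^ (L + c) := by
  unfold fr
  split_ifs with h
  · subst h
    rw [add_zero]
    omega
  · have : (10 : ℕ) ^ (L - c) ≤ 10 ^ (L + c) := Nat.pow_le_pow_right (by norm_num) (by omega)
    omega

theorem NN_le (L A J : ℕ) (hJ : A + J ≤ L) (m : Fin J → Fin 10) :
    NN L A J m ≤ 10 ^ (2 * L + 1) := by
  have h1 : ∀ K : ℕ, ∑ j ∈ range K, 9 * fr L (A + j) ≤ 2 * 10 ^ (L + A + K) := by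
    intro K
    induction K with
    | zero => simp
    | succ K ih =>
      rw [sum_range_succ]
      have h2 := fr_le L (A + K)
      have e1 : (10 : ℕ) ^ (L + A + (K + 1)) = 10 * 10 ^ (L + A + K) := by ring
      have e2 : (10 : ℕ) ^ (L + (A + K)) = 10 ^ (L + A + K) := by ring
      rw [e1]
      rw [e2] at h2
      omega
  calc NN L A J m ≤ ∑ j : Fin J, 9 * fr L (A + j) := by
        unfold NN
        apply sum_le_sum
        intro j _
        apply Nat.mul_le_mul_right
        have := (m j).is_lt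
        omega
    _ = ∑ j ∈ range J, 9 * fr L (A + j) :=
        Fin.sum_univ_eq_sum_range (fun j => 9 * fr L (A + j)) J
    _ ≤ 2 * 10 ^ (L + A + J) := h1 J
    _ ≤ 2 * 10 ^ (2 * L) := by
        apply Nat.mul_le_mul_left
        exact Nat.pow_le_pow_right (by norm_num) (by omega)
    _ ≤ 10 ^ (2 * L + 1) := by
        rw [pow_succ]
        omega

theorem Ps_eq (L A J : ℕ) (α : ℝ) :
    Ps L A J α = ‖∑ m : Fin J → Fin 10, ee (NN L A J m * α)‖ / 10 ^ J := by
  have h1 : ∑ m : Fin J → Fin 10, ee (NN L A J m * α) =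
      ∏ j : Fin J, ∑ d : Fin 10, ee ((d : ℕ) * (fr L (A + j) * α)) := by
    rw [prod_univ_sum, Fintype.piFinset_univ]
    apply sum_congr rfl
    intro m _
    have h2 : ∀ s : Finset (Fin J), ee ((∑ j ∈ s, ((m j : ℕ) : ℝ) * (fr L (A + j))) * α) =
        ∏ j ∈ s, ee (((m j : ℕ) : ℝ) * (fr L (A + j) * α)) := by
      intro s
      induction s using Finset.induction_on with
      | empty => simp [ls_ee_zero]
      | insert a s ha ih =>
        rw [sum_insert ha, prod_insert ha, ← ih, ← ls_ee_add]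
        congr 1
        ring
    rw [← h2]
    congr 2
    unfold NN
    push_cast
    rfl
  rw [h1, norm_prod]
  unfold Ps ph
  rw [prod_div_distrib, prod_const, card_range]
  congr 1
  rw [← Fin.prod_univ_eq_prod_range
    (fun j => ‖∑ m ∈ range 10, ee (m * ((fr L (A + j) : ℝ) * α))‖)]
  apply prod_congr rfl
  intro j _
  congr 1

theorem Ps_sq (L A J : ℕ) (α : ℝ) :
    (((Ps L A J α) ^ 2 : ℝ) : ℂ) = (∑ p : (Fin J → Fin 10) × (Fin J → Fin 10),
      ee (((NN L A J p.1 : ℝ) - NN L A J p.2) * α)) / 10 ^ (2 * J) := by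
  rw [Ps_eq, div_pow, ← pow_mul, mul_comm J 2]
  push_cast
  congr 1
  rw [← Complex.mul_conj', map_sum, sum_mul_sum, ← univ_product_univ, sum_product]
  apply sum_congr rfl
  intro m _
  apply sum_congr rfl
  intro m' _
  rw [ls_conj_ee, ← ls_ee_add]
  congr 1
  ring

theorem sum_ee (q : ℕ) (hq : 0 < q) (z : ℤ) :
    ∑ a ∈ range q, ee ((z : ℝ) * ((a : ℝ) / q)) = if (q : ℤ) ∣ z then (q : ℂ) else 0 := by
  have hq0 : (q : ℝ) ≠ 0 := by exact_mod_cast hq.ne'
  have h1 : ∀ a : ℕ, ee ((z : ℝ) * ((a : ℝ) / q)) = ee ((z : ℝ) / q) ^ a := by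
    intro a
    rw [← ls_ee_nat_mul]
    congr 1
    ring
  simp only [h1]
  split_ifs with h
  · obtain ⟨k, rfl⟩ := h
    have h2 : (((q : ℤ) * k : ℤ) : ℝ) / q = ((k : ℤ) : ℝ) := by
      push_cast
      field_simp
    rw [h2, ls_ee_int]
    simp
  · have hne : ee ((z : ℝ) / q) ≠ 1 := by
      intro h2
      obtain ⟨k, hk⟩ := ls_ee_eq_one h2
      apply h
      refine ⟨k, ?_⟩
      rw [div_eq_iff hq0] at hk
      have : (z : ℝ) = ((q * k : ℤ) : ℝ) := by
        rw [hk]
        push_cast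
        ring
      exact_mod_cast this
    rw [geom_sum_eq hne, ← ls_ee_nat_mul]
    have h3 : (q : ℝ) * ((z : ℝ) / q) = ((z : ℤ) : ℝ) := by
      field_simp
    rw [h3, ls_ee_int, sub_self, zero_div]

theorem inner_sum (L A J q : ℕ) (hq : 0 < q) :
    ∑ a ∈ range q, (Ps L A J ((a : ℝ) / q)) ^ 2 =
      (∑ p : (Fin J → Fin 10) × (Fin J → Fin 10),
        if (q : ℤ) ∣ ((NN L A J p.1 : ℤ) - NN L A J p.2) then (q : ℝ) else 0) / 10 ^ (2 * J) := by
  have h : ((∑ a ∈ range q, (Ps L A J ((a : ℝ) / q)) ^ 2 : ℝ) : ℂ) =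
      (((∑ p : (Fin J → Fin 10) × (Fin J → Fin 10),
        if (q : ℤ) ∣ ((NN L A J p.1 : ℤ) - NN L A J p.2) then (q : ℝ) else 0) / 10 ^ (2 * J) : ℝ) : ℂ) := by
    rw [Complex.ofReal_sum]
    simp only [Ps_sq]
    rw [← sum_div, sum_comm]
    push_cast
    congr 1
    apply sum_congr rfl
    intro p _
    have h1 := sum_ee q hq ((NN L A J p.1 : ℤ) - NN L A J p.2)
    push_cast at h1
    rw [h1]
    split_ifs <;> simp
  exact_mod_cast h

theorem pair_bound (L A J Q : ℕ) (T : ℝ) (hA : A + J ≤ L)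
    (hT : ∀ n : ℕ, 1 ≤ n → n ≤ 10 ^ (2 * L + 1) → (n.divisors.card : ℝ) ≤ T)
    (p : (Fin J → Fin 10) × (Fin J → Fin 10)) :
    ∑ q ∈ (Ico Q (2 * Q)).filter (fun q => q.Coprime 10),
      (if (q : ℤ) ∣ ((NN L A J p.1 : ℤ) - NN L A J p.2) then (q : ℝ) else 0) ≤
      if p.1 = p.2 then (2 * Q * Q : ℝ) else 2 * Q * T := by
  have hT0 : 0 ≤ T := by
    have := hT 1 le_rfl (Nat.one_le_pow _ _ (by norm_num))
    refine le_trans ?_ this
    positivity
  split_ifs with h
  · calc ∑ q ∈ (Ico Q (2 * Q)).filter (fun q => q.Coprime 10),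
        (if (q : ℤ) ∣ ((NN L A J p.1 : ℤ) - NN L A J p.2) then (q : ℝ) else 0)
        ≤ ∑ q ∈ (Ico Q (2 * Q)).filter (fun q => q.Coprime 10), (2 * Q : ℝ) := by
          apply sum_le_sum
          intro q hq
          rw [mem_filter, mem_Ico] at hq
          have : (q : ℝ) ≤ 2 * Q := by exact_mod_cast hq.1.2.le
          split_ifs
          · exact this
          · positivity
      _ ≤ ∑ q ∈ Ico Q (2 * Q), (2 * Q : ℝ) :=
          sum_le_sum_of_subset_of_nonneg (filter_subset _ _) (fun _ _ _ => by positivity)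
      _ = 2 * Q * Q := by
          rw [sum_const, Nat.card_Ico, nsmul_eq_mul]
          have : 2 * Q - Q = Q := by omega
          rw [this]
          ring
  · have hne : NN L A J p.1 ≠ NN L A J p.2 := fun h' => h (NN_inj L A J hA h')
    set n := ((NN L A J p.1 : ℤ) - NN L A J p.2).natAbs with hn
    have hn1 : 1 ≤ n := by omega
    have hle1 := NN_le L A J hA p.1
    have hle2 := NN_le L A J hA p.2
    have hn2 : n ≤ 10 ^ (2 * L + 1) := by omega
    have hdiv := hT n hn1 hn2
    calc ∑ q ∈ (Ico Q (2 * Q)).filter (fun q => q.Coprime 10),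
        (if (q : ℤ) ∣ ((NN L A J p.1 : ℤ) - NN L A J p.2) then (q : ℝ) else 0)
        ≤ ∑ q ∈ Ico Q (2 * Q), (if q ∣ n then (2 * Q : ℝ) else 0) := by
          refine (sum_le_sum_of_subset_of_nonneg (filter_subset _ _)
            (fun _ _ _ => by positivity)).trans ?_
          apply sum_le_sum
          intro q hq
          rw [mem_Ico] at hq
          have h2 : (q : ℝ) ≤ 2 * Q := by exact_mod_cast hq.2.le
          have h3 : ((q : ℤ) ∣ ((NN L A J p.1 : ℤ) - NN L A J p.2)) ↔ q ∣ n := by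
            rw [hn, Int.natCast_dvd]
          simp only [h3]
          split_ifs
          · exact h2
          · exact le_rfl
      _ = ((Ico Q (2 * Q)).filter (fun q => q ∣ n)).card * (2 * Q : ℝ) := by
          rw [← sum_filter, sum_const, nsmul_eq_mul]
      _ ≤ (n.divisors.card : ℝ) * (2 * Q : ℝ) := by
          apply mul_le_mul_of_nonneg_right _ (by positivity)
          have : (Ico Q (2 * Q)).filter (fun q => q ∣ n) ⊆ n.divisors := by
            intro q hq
            rw [mem_filter] at hq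
            exact Nat.mem_divisors.2 ⟨hq.2, by omega⟩
          exact_mod_cast card_le_card this
      _ ≤ T * (2 * Q : ℝ) := mul_le_mul_of_nonneg_right hdiv (by positivity)
      _ = 2 * Q * T := by ring

theorem T2 (L A J Q : ℕ) (T : ℝ) (hA : A + J ≤ L) (h1 : Q ≤ 10 ^ J)
    (hT : ∀ n : ℕ, 1 ≤ n → n ≤ 10 ^ (2 * L + 1) → (n.divisors.card : ℝ) ≤ T) :
    apts Q (fun α => Ps L A J α ^ 2) ≤ 2 * Q + 2 * Q * T := by
  rcases Nat.eq_zero_or_pos Q with hQ | hQ
  · subst hQ
    simp [apts]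
  have hT0 : 0 ≤ T := by
    have := hT 1 le_rfl (Nat.one_le_pow _ _ (by norm_num))
    refine le_trans ?_ this
    positivity
  unfold apts
  have h2 : ∑ q ∈ (Ico Q (2 * Q)).filter (fun q => q.Coprime 10),
      ∑ a ∈ range q, Ps L A J ((a : ℝ) / q) ^ 2 =
      (∑ p : (Fin J → Fin 10) × (Fin J → Fin 10),
        ∑ q ∈ (Ico Q (2 * Q)).filter (fun q => q.Coprime 10),
        if (q : ℤ) ∣ ((NN L A J p.1 : ℤ) - NN L A J p.2) then (q : ℝ) else 0) / 10 ^ (2 * J) := by
    rw [sum_comm, sum_div]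
    apply sum_congr rfl
    intro q hq
    rw [mem_filter, mem_Ico] at hq
    exact inner_sum L A J q (by omega)
  rw [h2, div_le_iff₀ (by positivity)]
  calc ∑ p : (Fin J → Fin 10) × (Fin J → Fin 10),
        ∑ q ∈ (Ico Q (2 * Q)).filter (fun q => q.Coprime 10),
        (if (q : ℤ) ∣ ((NN L A J p.1 : ℤ) - NN L A J p.2) then (q : ℝ) else 0)
      ≤ ∑ p : (Fin J → Fin 10) × (Fin J → Fin 10),
        (if p.1 = p.2 then (2 * Q * Q : ℝ) else 2 * Q * T) :=
        sum_le_sum (fun p _ => pair_bound L A J Q T hA hT p)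
    _ ≤ ∑ p : (Fin J → Fin 10) × (Fin J → Fin 10),
        ((if p.1 = p.2 then (2 * Q * Q : ℝ) else 0) + 2 * Q * T) := by
        apply sum_le_sum
        intro p _
        split_ifs
        · have : 0 ≤ 2 * (Q : ℝ) * T := by positivity
          linarith
        · linarith
    _ = 10 ^ J * (2 * Q * Q) + 10 ^ (2 * J) * (2 * Q * T) := by
        rw [sum_add_distrib, sum_const, card_univ, Fintype.card_prod, Fintype.card_fun,
          Fintype.card_fin, Fintype.card_fin, nsmul_eq_mul]
        congr 1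
        · rw [Fintype.sum_prod_type]
          simp only [Finset.sum_ite_eq, mem_univ, if_true]
          rw [sum_const, card_univ, Fintype.card_fun, Fintype.card_fin, Fintype.card_fin,
            nsmul_eq_mul]
          push_cast
          ring
        · push_cast
          ring
    _ ≤ (2 * Q + 2 * Q * T) * 10 ^ (2 * J) := by
        have h3 : (Q : ℝ) ≤ 10 ^ J := by exact_mod_cast h1
        have h4 : (10 : ℝ) ^ J * (2 * Q * Q) ≤ 10 ^ J * (2 * Q * 10 ^ J) := by gcongr
        have h5 : (10 : ℝ) ^ (2 * J) = 10 ^ J * 10 ^ J := by rw [two_mul, pow_add]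
        rw [h5]
        nlinarith

end Pool.Agent.H898R2.PalT2
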